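import Mathlib
import Pool.Agent.Helper446.Oracle

set_option autoImplicit false

namespace Pool.Agent.H274Z.Cosp

open Pool.Agent.Helper446 Pool.Agent.Helper446.Defs Pool.Agent.Helper446.Oracle

/-- membership in the join of `Y` and its complement -/
def JO (Y : Set ℕ) (x : ℕ) : Prop := (x % 2 = 0 ∧ x / 2 ∈ Y) ∨ (x % 2 = 1 ∧ x / 2 ∉ Y)

open Classical in
noncomputable def base (X : ℕ → Set ℕ) (n : ℕ) : ℕ :=
  if JO (X n.unpair.1) n.unpair.2 then 1 else 0

def Dom (s m n : ℕ) : Prop := n < m ∨ n.unpair.1 < s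

def Compat (s m : ℕ) (h : ℕ → ℕ) (u : ℕ) : Prop :=
  ∀ y : ℕ, u.testBit y = true → Dom s m y.unpair.1 → h y.unpair.1 ≠ y.unpair.2

def Phi (s x u : ℕ) : Prop :=
  ((Denumerable.ofNat Nat.Partrec.Code s).eval (Nat.pair x u)).Dom

lemma lt_of_testBit {u y : ℕ} (h : u.testBit y = true) : y < u :=
  lt_of_lt_of_le Nat.lt_two_pow_self (Nat.ge_two_pow_of_testBit h)

def Cond (X : ℕ → Set ℕ) : Type := {c : ℕ × (ℕ → ℕ) // ∀ n, c.1 ≤ n → c.2 n = base X n}

def Next (X : ℕ → Set ℕ) (s : ℕ) (c c' : Cond X) : Prop :=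
  c.1.1 ≤ c'.1.1 ∧ (∀ n, Dom s c.1.1 n → c'.1.2 n = c.1.2 n) ∧
    ((∃ z u0 u1, Phi s (2 * z) u0 ∧ Phi s (2 * z + 1) u1 ∧
        ∀ y : ℕ, (u0.testBit y = true ∨ u1.testBit y = true) →
          y.unpair.1 < c'.1.1 ∧ c'.1.2 y.unpair.1 ≠ y.unpair.2) ∨
      ¬ ∃ z u0 u1, Phi s (2 * z) u0 ∧ Phi s (2 * z + 1) u1 ∧
        Compat s c.1.1 c.1.2 u0 ∧ Compat s c.1.1 c.1.2 u1)

lemma exists_next (X : ℕ → Set ℕ) (s : ℕ) (c : Cond X) : ∃ c', Next X s c c' := by
  classical
  by_cases H : ∃ z u0 u1, Phi s (2 * z) u0 ∧ Phi s (2 * z + 1) u1 ∧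
        Compat s c.1.1 c.1.2 u0 ∧ Compat s c.1.1 c.1.2 u1
  · obtain ⟨z, u0, u1, h0, h1, c0, c1⟩ := H
    refine ⟨⟨(c.1.1 + u0 + u1,
      fun n => if ¬ Dom s c.1.1 n ∧ n < u0 + u1 then u0 + u1 else c.1.2 n), ?_⟩, ?_, ?_, ?_⟩
    · intro n hn
      simp only at hn ⊢
      rw [if_neg (by omega), c.2 n (by omega)]
    · simp only
      omega
    · intro n hn
      simp [hn]
    · refine Or.inl ⟨z, u0, u1, h0, h1, fun y hy => ?_⟩
      have l1 := Nat.unpair_left_le y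
      have l2 := Nat.unpair_right_le y
      have hy' : y < u0 + u1 := by
        rcases hy with hy | hy <;> have := lt_of_testBit hy <;> omega
      refine ⟨by simp only; omega, ?_⟩
      simp only
      by_cases hd : Dom s c.1.1 y.unpair.1
      · rw [if_neg (by simp [hd])]
        rcases hy with hy | hy
        · exact c0 y hy hd
        · exact c1 y hy hd
      · rw [if_pos ⟨hd, by omega⟩]
        omega
  · exact ⟨c, le_rfl, fun _ _ => rfl, Or.inr H⟩

noncomputable def seq (X : ℕ → Set ℕ) : ℕ → Cond X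
  | 0 => ⟨(0, base X), fun _ _ => rfl⟩
  | s + 1 => Classical.choose (exists_next X s (seq X s))

lemma seq_next (X : ℕ → Set ℕ) (s : ℕ) : Next X s (seq X s) (seq X (s + 1)) :=
  Classical.choose_spec (exists_next X s (seq X s))

lemma seq_mono (X : ℕ → Set ℕ) (s k : ℕ) : (seq X s).1.1 ≤ (seq X (s + k)).1.1 ∧
    ∀ n, Dom s (seq X s).1.1 n → (seq X (s + k)).1.2 n = (seq X s).1.2 n := by
  induction k with
  | zero => exact ⟨le_rfl, fun _ _ => rfl⟩
  | succ k ih =>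
    obtain ⟨h1, h2, -⟩ := seq_next X (s + k)
    refine ⟨le_trans ih.1 h1, fun n hn => ?_⟩
    rw [← ih.2 n hn]
    apply h2
    have := ih.1
    unfold Dom at *
    omega

noncomputable def lim (X : ℕ → Set ℕ) (n : ℕ) : ℕ := (seq X (n.unpair.1 + 1)).1.2 n

lemma lim_eq (X : ℕ → Set ℕ) (s n : ℕ) (h : Dom s (seq X s).1.1 n) :
    lim X n = (seq X s).1.2 n := by
  have h1 := (seq_mono X s (n.unpair.1 + 1)).2 n h
  have h2 := (seq_mono X (n.unpair.1 + 1) s).2 n (Or.inr (by omega))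
  rw [Nat.add_comm] at h2
  rw [← h1, h2]
  rfl

lemma cdiv {α : Type} [Primcodable α] {f : α → ℕ} (hf : Computable f) (k : ℕ) :
    Computable fun a => f a / k := Primrec.nat_div.to_comp.comp hf (Computable.const k)

lemma cmod {α : Type} [Primcodable α] {f : α → ℕ} (hf : Computable f) (k : ℕ) :
    Computable fun a => f a % k := Primrec.nat_mod.to_comp.comp hf (Computable.const k)

lemma cpow {α : Type} [Primcodable α] {f : α → ℕ} (hf : Computable f) :
    Computable fun a => 2 ^ f a :=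
  (Primrec₂.unpaired'.1 Nat.Primrec.pow).to_comp.comp (Computable.const 2) hf

theorem forward (X : ℕ → Set ℕ) (i : ℕ) : ∃ g : ℕ →. ℕ, Partrec g ∧ ∀ x : ℕ, JO (X i) x ↔
    ∃ u : ℕ, (g (Nat.pair x u)).Dom ∧
      ∀ y : ℕ, u.testBit y = true → lim X y.unpair.1 ≠ y.unpair.2 := by
  classical
  set m := (seq X (i + 1)).1.1 with hm
  set L := (List.range m).filter (fun x => JO (X i) x) with hL
  have hP : REPred fun n : ℕ => (n.unpair.1 ∈ L ∧ n.unpair.2 = 0) ∨
      (m ≤ n.unpair.1 ∧ n.unpair.2 = 2 ^ Nat.pair (Nat.pair i n.unpair.1) 0) :=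
    RE.or (RE.and (RE.mem_list (by fun_prop) (by fun_prop)) (RE.eq (by fun_prop) (by fun_prop)))
      (RE.and (RE.le (by fun_prop) (by fun_prop)) (RE.eq (by fun_prop) (cpow (by fun_prop))))
  refine ⟨_, Partrec.map hP (Computable.const (0 : ℕ)).to₂, fun x => ?_⟩
  have hb : m ≤ x → lim X (Nat.pair i x) = if JO (X i) x then 1 else 0 := by
    intro hx
    have := Nat.right_le_pair i x
    rw [lim_eq X (i + 1) _ (Or.inr (by simp)), (seq X (i + 1)).2 _ (by omega)]
    simp [base]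
  have hd : ∀ u, ((Part.assert ((((Nat.pair x u).unpair.1 ∈ L ∧ (Nat.pair x u).unpair.2 = 0) ∨
      (m ≤ (Nat.pair x u).unpair.1 ∧ (Nat.pair x u).unpair.2 =
        2 ^ Nat.pair (Nat.pair i (Nat.pair x u).unpair.1) 0))) fun _ => Part.some ()).map
          (fun _ => (0 : ℕ))).Dom ↔
      ((x ∈ L ∧ u = 0) ∨ (m ≤ x ∧ u = 2 ^ Nat.pair (Nat.pair i x) 0)) := by
    intro u
    simp [Part.assert]
  simp only [hd]
  constructor
  · intro hx
    by_cases hxm : x < m
    · exact ⟨0, Or.inl ⟨by simp [hL, hxm, hx], rfl⟩, by simp⟩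
    · refine ⟨_, Or.inr ⟨by omega, rfl⟩, fun y hy => ?_⟩
      rw [Nat.testBit_two_pow, decide_eq_true_eq] at hy
      subst hy
      simp [hb (by omega), hx]
  · rintro ⟨u, h | h, hu⟩
    · have := h.1
      simp only [hL, List.mem_filter, decide_eq_true_eq] at this
      exact this.2
    · have := hu (Nat.pair (Nat.pair i x) 0) (by rw [h.2]; simp)
      by_contra hx
      simp [hb h.1, hx] at this

lemma fin_or {α : Type} [Primcodable α] (A : Set ℕ) (S : ℕ → α → Prop) (s : ℕ)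
    (h : ∀ i, i < s → REIn A (S i)) : REIn A fun a => ∃ i, i < s ∧ S i a := by
  induction s with
  | zero => exact (REIn.of_re (RE.const False)).of_eq (by simp)
  | succ s ih =>
    refine ((ih fun i hi => h i (by omega)).or (h s (by omega))).of_eq fun a => ?_
    constructor
    · rintro (⟨i, hi, H⟩ | H)
      · exact ⟨i, by omega, H⟩
      · exact ⟨s, by omega, H⟩
    · rintro ⟨i, hi, H⟩
      by_cases e : i = s
      · exact Or.inr (e ▸ H)
      · exact Or.inl ⟨i, by omega, H⟩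

lemma re_JO {A Y : Set ℕ} {r : ℕ → ℕ} (hr : Computable r) (h : ∀ z, z ∈ Y ↔ r z ∈ A) :
    REIn A (JO Y) ∧ REIn A (fun x => ¬ JO Y x) := by
  have e0 : REIn A fun x : ℕ => x % 2 = 0 :=
    REIn.of_re (RE.eq (cmod Computable.id 2) (by fun_prop))
  have e1 : REIn A fun x : ℕ => x % 2 = 1 :=
    REIn.of_re (RE.eq (cmod Computable.id 2) (by fun_prop))
  have m1 : REIn A fun x : ℕ => r (x / 2) ∈ A := REIn.mem (hr.comp (cdiv Computable.id 2))
  have m0 : REIn A fun x : ℕ => r (x / 2) ∉ A := REIn.not_mem (hr.comp (cdiv Computable.id 2))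
  constructor
  · exact ((e0.and m1).or (e1.and m0)).of_eq fun x => by simp [JO, h]
  · refine ((e0.and m0).or (e1.and m1)).of_eq fun x => ?_
    unfold JO
    rw [h]
    rcases Nat.mod_two_eq_zero_or_one x with e | e <;> simp [e]

lemma re_compat (X : ℕ → Set ℕ) (A : Set ℕ) (s : ℕ) (c : Cond X)
    (hA : ∀ i, i < s → ∃ r, Computable r ∧ ∀ z, z ∈ X i ↔ r z ∈ A) :
    REIn A (Compat s c.1.1 c.1.2) := by
  classical
  have h1 : REIn A fun y : ℕ => ∃ i, i < s ∧ (y.unpair.1.unpair.1 = i ∧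
      ((JO (X i) y.unpair.1.unpair.2 ∧ 1 ≠ y.unpair.2) ∨
        (¬ JO (X i) y.unpair.1.unpair.2 ∧ 0 ≠ y.unpair.2))) := by
    refine fin_or A _ s fun i hi => ?_
    obtain ⟨r, hr, h⟩ := hA i hi
    obtain ⟨j1, j0⟩ := re_JO hr h
    refine (REIn.of_re (RE.eq (by fun_prop) (by fun_prop))).and (REIn.or (REIn.and ?_ ?_)
      (REIn.and ?_ ?_))
    · exact j1.comp (f := fun y : ℕ => y.unpair.1.unpair.2) (by fun_prop)
    · exact REIn.of_re (RE.ne (by fun_prop) (by fun_prop))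
    · exact j0.comp (f := fun y : ℕ => y.unpair.1.unpair.2) (by fun_prop)
    · exact REIn.of_re (RE.ne (by fun_prop) (by fun_prop))
  have h2 : REIn A fun y : ℕ => y.unpair.1 < c.1.1 ∧
      ((List.range c.1.1).map c.1.2)[y.unpair.1]? ≠ some y.unpair.2 :=
    REIn.of_re (RE.and (RE.lt (by fun_prop) (by fun_prop)) (RE.ne (by fun_prop) (by fun_prop)))
  have h3 : REIn A fun y : ℕ => c.1.1 ≤ y.unpair.1 ∧ s ≤ y.unpair.1.unpair.1 :=
    REIn.of_re (RE.and (RE.le (by fun_prop) (by fun_prop)) (RE.le (by fun_prop) (by fun_prop)))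
  have h4 : REIn A fun y : ℕ => c.1.1 ≤ y.unpair.1 :=
    REIn.of_re (RE.le (by fun_prop) (by fun_prop))
  have h5 : REIn A fun y : ℕ => Dom s c.1.1 y.unpair.1 → c.1.2 y.unpair.1 ≠ y.unpair.2 := by
    refine ((h2.or h3).or (h4.and h1)).of_eq fun y => ?_
    unfold Dom
    by_cases a1 : y.unpair.1 < c.1.1
    · have a1' : ¬ c.1.1 ≤ y.unpair.1 := by omega
      simp [a1, a1']
    · have a1' : c.1.1 ≤ y.unpair.1 := by omega
      rw [c.2 _ a1']
      by_cases a2 : y.unpair.1.unpair.1 < s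
      · have a2' : ¬ s ≤ y.unpair.1.unpair.1 := by omega
        by_cases a3 : JO (X y.unpair.1.unpair.1) y.unpair.1.unpair.2 <;>
          simp [a1, a1', a2, a2', base, a3]
      · have a2' : s ≤ y.unpair.1.unpair.1 := by omega
        simp [a1, a1', a2, a2']
  have h6 : REIn A fun p : ℕ × ℕ => p.1 / 2 ^ p.2 % 2 ≠ 1 ∨
      (Dom s c.1.1 p.2.unpair.1 → c.1.2 p.2.unpair.1 ≠ p.2.unpair.2) := by
    refine REIn.or (REIn.of_re (RE.ne (cmod ?_ 2) (by fun_prop))) (h5.comp Computable.snd)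
    exact Primrec.nat_div.to_comp.comp Computable.fst (cpow Computable.snd)
  have h7 := REIn.all_lt (S := fun u y : ℕ => u / 2 ^ y % 2 ≠ 1 ∨
      (Dom s c.1.1 y.unpair.1 → c.1.2 y.unpair.1 ≠ y.unpair.2)) h6 Computable.id
  refine h7.of_eq fun u => ?_
  unfold Compat
  constructor
  · intro H y hy
    refine (H y (lt_of_testBit hy)).resolve_left ?_
    rw [Nat.testBit_eq_decide_div_mod_eq, decide_eq_true_eq] at hy
    exact not_not.2 hy
  · intro H y _
    rw [← imp_iff_not_or]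
    intro hy
    exact H y (by rw [Nat.testBit_eq_decide_div_mod_eq, decide_eq_true_eq]; exact hy)

lemma re_phi (s : ℕ) : REPred fun p : ℕ × ℕ => Phi s p.1 p.2 := by
  have h1 : Computable fun _ : ℕ × ℕ => Denumerable.ofNat Nat.Partrec.Code s :=
    Computable.const _
  have h2 : Computable fun p : ℕ × ℕ => Nat.pair p.1 p.2 := by fun_prop
  exact (Nat.Partrec.Code.eval_part.comp h1 h2).dom_re

theorem backward (X : ℕ → Set ℕ) (Y : Set ℕ) (g : ℕ →. ℕ) (hg : Partrec g)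
    (H : ∀ x : ℕ, JO Y x ↔ ∃ u : ℕ, (g (Nat.pair x u)).Dom ∧
      ∀ y : ℕ, u.testBit y = true → lim X y.unpair.1 ≠ y.unpair.2) :
    ∃ s, ∀ A : Set ℕ, (∀ i, i < s → ∃ r, Computable r ∧ ∀ z, z ∈ X i ↔ r z ∈ A) →
      TuringReducible (chi Y) (chi A) := by
  obtain ⟨c, hc⟩ := Nat.Partrec.Code.exists_code.1 (Partrec.nat_iff.1 hg)
  refine ⟨Encodable.encode c, fun A hA => ?_⟩
  set s := Encodable.encode c with hs
  have hphi : ∀ x u, Phi s x u ↔ (g (Nat.pair x u)).Dom := by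
    intro x u
    unfold Phi
    rw [hs, Denumerable.ofNat_encode, hc]
  simp only [← hphi] at H
  have j0 : ∀ z, JO Y (2 * z) ↔ z ∈ Y := by
    intro z
    unfold JO
    rw [show 2 * z / 2 = z by omega, show 2 * z % 2 = 0 by omega]
    simp
  have j1 : ∀ z, JO Y (2 * z + 1) ↔ z ∉ Y := by
    intro z
    unfold JO
    rw [show (2 * z + 1) / 2 = z by omega, show (2 * z + 1) % 2 = 1 by omega]
    simp
  obtain ⟨-, -, hcase | hcase⟩ := seq_next X s
  · exfalso
    obtain ⟨z, u0, u1, p0, p1, hy⟩ := hcase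
    have k : ∀ y : ℕ, (u0.testBit y = true ∨ u1.testBit y = true) →
        lim X y.unpair.1 ≠ y.unpair.2 := by
      intro y h
      rw [lim_eq X (s + 1) _ (Or.inl (hy y h).1)]
      exact (hy y h).2
    exact (j1 z).1 ((H _).2 ⟨u1, p1, fun y h => k y (Or.inr h)⟩)
      ((j0 z).1 ((H _).2 ⟨u0, p0, fun y h => k y (Or.inl h)⟩))
  · have up : ∀ x, JO Y x → ∃ u, Phi s x u ∧ Compat s (seq X s).1.1 (seq X s).1.2 u := by
      intro x hx
      obtain ⟨u, h1, h2⟩ := (H x).1 hx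
      refine ⟨u, h1, fun y hy hd => ?_⟩
      rw [← lim_eq X s _ hd]
      exact h2 y hy
    have hre : REIn A fun x : ℕ => ∃ u, Phi s x u ∧ Compat s (seq X s).1.1 (seq X s).1.2 u :=
      REIn.ex (S := fun x u => Phi s x u ∧ Compat s (seq X s).1.1 (seq X s).1.2 u)
        ((REIn.of_re (re_phi s)).and ((re_compat X A s (seq X s) hA).comp Computable.snd))
    rw [turingReducible_iff]
    constructor
    · refine (hre.comp (f := fun z : ℕ => 2 * z) (by fun_prop)).of_eq fun z => ?_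
      constructor
      · rintro ⟨u, h1, h2⟩
        by_contra hz
        obtain ⟨u', h3, h4⟩ := up _ ((j1 z).2 hz)
        exact hcase ⟨z, u, u', h1, h3, h2, h4⟩
      · intro hz
        exact up _ ((j0 z).2 hz)
    · refine (hre.comp (f := fun z : ℕ => 2 * z + 1) (by fun_prop)).of_eq fun z => ?_
      constructor
      · rintro ⟨u, h1, h2⟩ hz
        obtain ⟨u', h3, h4⟩ := up _ ((j0 z).2 hz)
        exact hcase ⟨z, u', u, h3, h1, h4, h2⟩
      · intro hz
        exact up _ ((j1 z).2 hz)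

lemma chi_eq (Y : Set ℕ) :
    (fun n => Part.some (Y.indicator (fun _ => (1 : ℕ)) n) : ℕ →. ℕ) = chi Y := by
  funext n
  by_cases h : n ∈ Y
  · simp [chi, chiN, h]
  · simp [chi, chiN, h]

theorem main (I : Set (Set ℕ)) (hc : I.Countable) (hne : I.Nonempty)
    (hred : ∀ X Y : Set ℕ, X ∈ I →
      TuringReducible (fun n => Part.some (Y.indicator (fun _ => (1 : ℕ)) n))
        (fun n => Part.some (X.indicator (fun _ => (1 : ℕ)) n)) → Y ∈ I)
    (hjoin : ∀ X Y : Set ℕ, X ∈ I → Y ∈ I →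
      {n : ℕ | (n % 2 = 0 ∧ n / 2 ∈ X) ∨ (n % 2 = 1 ∧ n / 2 ∈ Y)} ∈ I) :
    ∃ f : ℕ → ℕ, ∀ X : Set ℕ, X ∈ I ↔
      ∃ g : ℕ →. ℕ, Partrec g ∧ ∀ x : ℕ, JO X x ↔
        ∃ u : ℕ, (g (Nat.pair x u)).Dom ∧
          ∀ y : ℕ, u.testBit y = true → f (Nat.unpair y).1 ≠ (Nat.unpair y).2 := by
  obtain ⟨X, hX⟩ := hc.exists_eq_range hne
  have hmem : ∀ i, X i ∈ I := fun i => hX ▸ Set.mem_range_self i
  have hA : ∀ s, ∃ A ∈ I, ∀ i, i < s → ∃ r, Computable r ∧ ∀ z, z ∈ X i ↔ r z ∈ A := by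
    intro s
    induction s with
    | zero => exact ⟨X 0, hmem 0, fun i hi => absurd hi (by omega)⟩
    | succ s ih =>
      obtain ⟨A, hA, h⟩ := ih
      refine ⟨_, hjoin A (X s) hA (hmem s), fun i hi => ?_⟩
      by_cases e : i = s
      · subst e
        refine ⟨fun z => 2 * z + 1, by fun_prop, fun z => ?_⟩
        simp only [Set.mem_ofPred_eq]
        rw [show (2 * z + 1) / 2 = z by omega, show (2 * z + 1) % 2 = 1 by omega]
        simp
      · obtain ⟨r, hr, h'⟩ := h i (by omega)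
        refine ⟨fun z => 2 * r z, by fun_prop, fun z => ?_⟩
        simp only [Set.mem_ofPred_eq]
        rw [show 2 * r z / 2 = r z by omega, show 2 * r z % 2 = 0 by omega, h']
        simp
  refine ⟨lim X, fun Y => ⟨fun hY => ?_, ?_⟩⟩
  · rw [hX] at hY
    obtain ⟨i, rfl⟩ := hY
    exact forward X i
  · rintro ⟨g, hg, H⟩
    obtain ⟨s, hs⟩ := backward X Y g hg H
    obtain ⟨A, hAI, h⟩ := hA s
    refine hred A Y hAI ?_
    rw [chi_eq, chi_eq]
    exact hs A h

end Pool.Agent.H274Z.Cosp
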